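import Mathlib
import Pool.Agent.H450R3.POT5

set_option autoImplicit false

/-- There is a real positive semidefinite `12 × 12` matrix whose Schur power matrix has an
eigenvalue larger than the permanent: real permanent-on-top already fails for `n = 12`. -/
theorem Pool.Agent.Results.MP_102303_co.RealPOTFails12.result :
    ∃ A : Matrix (Fin 12) (Fin 12) ℝ, A.PosSemidef ∧
      ∃ μ : ℝ, A.permanent < μ ∧
        Module.End.HasEigenvalue
          (Matrix.toLin' (Matrix.of fun σ τ : Equiv.Perm (Fin 12) => ∏ i, A (σ i) (τ i))) μ :=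
  ⟨Pool.Agent.H450R3.POT.GA Pool.Agent.H450R3.POT.V,
    Pool.Agent.H450R3.POT.GA_psd Pool.Agent.H450R3.POT.V, Pool.Agent.H450R3.POT.main⟩
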